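import Pool.Agent.helper22.FI3.SpecCQ

set_option autoImplicit false

/-!
# FI3, JD0: the alternating sum vanishes
-/

namespace Pool.Agent.FI3

open Pool.Agent.helper58.DC Pool.Agent.DI Pool.Agent.GR Pool.Agent.OB Pool.Agent.DR Pool.Agent.FI

theorem JD0 (hFNO : FNO_stmt) (hA4 : A4_stmt) : JD0_stmt := by
  intro Γ _ _ p _ L Z R hZ hZL hR hRL hLR hRZ g
  have h1 := hFNO Γ p L Z L g hZ hZL
  have h2 := hA4 Γ p L Z L R g hR hRL hLR (inf_le_left.trans hLR) hRZ
  rw [← h1, h2]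

end Pool.Agent.FI3
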