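import Pool.Agent.helper70.FI3.SpecN3

set_option autoImplicit false

/-!
# FI3, SUA3: the contributions Su
-/

namespace Pool.Agent.FI3

open Pool.Agent.helper58.DC Pool.Agent.DI Pool.Agent.GR Pool.Agent.OB Pool.Agent.DR Pool.Agent.FI

theorem SUA3_alg {V E : Type} (S : Finset V) (T : Finset E) (a b : E → ℂ) (f g : E → V → ℂ) :
    ∑ v ∈ S, (∑ η ∈ T, a η * f η v) * (∑ η ∈ T, b η * g η v) =
      ∑ η ∈ T, ∑ η' ∈ T, a η * b η' * ∑ v ∈ S, f η v * g η' v := by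
  have h1 : ∀ v ∈ S, (∑ η ∈ T, a η * f η v) * (∑ η ∈ T, b η * g η v) =
      ∑ η ∈ T, ∑ η' ∈ T, a η * b η' * (f η v * g η' v) := by
    intro v _
    rw [Finset.sum_mul_sum]
    refine Finset.sum_congr rfl fun η _ => Finset.sum_congr rfl fun η' _ => ?_
    ring
  rw [Finset.sum_congr rfl h1, Finset.sum_comm]
  refine Finset.sum_congr rfl fun η _ => ?_
  rw [Finset.sum_comm]
  refine Finset.sum_congr rfl fun η' _ => ?_
  rw [Finset.mul_sum]

theorem SUA3 (hQES : QES_stmt) (hQCE : QCE_stmt) (hCHC : Pool.Agent.FI.CHC_stmt) (hB2 : B2_stmt) : SUA3_stmt := by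
  classical
  intro p M G _ _ L θ u hu χ' hχ
  have huK : u ∈ Cz L u := by
    refine Subgroup.mem_inf.2 ⟨hu, Subgroup.mem_centralizer_iff.2 fun h hh => ?_⟩
    rw [Set.mem_singleton_iff.1 hh]
  have hcen : Cen (Cz L u) u := by
    intro l hl
    exact (Subgroup.mem_centralizer_iff.1 (Subgroup.mem_inf.1 hl).2 u (Set.mem_singleton u)).symm
  have hKL : Cz L u ≤ L := inf_le_left
  have hT : (Bl M (Cz L u) θ).Finite := (hB2 G (Cz L u)).1.subset fun ψ h => h.1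
  have hSf : {v : G | v ∈ Cz L u ∧ PReg p v}.Finite := Set.toFinite _
  have hcard : (Nat.card (Cz L u) : ℂ) ≠ 0 := by exact_mod_cast Nat.card_pos.ne'
  have h1 : ∀ v ∈ hSf.toFinset, ev χ' (eS (Cz L u) (Bl M (Cz L u) θ)) (u * v) =
      ∑ η ∈ hT.toFinset, (mt (Cz L u) χ' η * (η u / η 1)) * η v := by
    intro v hv
    have hv' := hSf.mem_toFinset.1 hv
    have h2 := (hQES G L χ' hχ).1 (Cz L u) hKL (Bl M (Cz L u) θ) (fun ψ h => h.1) (u * v)
      ((Cz L u).mul_mem huK hv'.1)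
    rw [finsum_mem_eq_finite_toFinset_sum _ hT] at h2
    rw [h2]
    refine Finset.sum_congr rfl fun η hη => ?_
    have hη' := (hT.mem_toFinset.1 hη).1
    have h3 := (hQCE G (Cz L u) u huK hcen η hη').1 v
    obtain ⟨n, hn, hn1, _⟩ := ((hB2 G (Cz L u)).2 η hη').1
    have h4 : η 1 ≠ 0 := by
      rw [hn1]
      exact_mod_cast hn.ne'
    have h5 : η (u * v) = η u / η 1 * η v := by
      rw [div_mul_eq_mul_div, eq_div_iff h4, h3]
    rw [h5]
    ring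
  have h2 : ∀ v ∈ hSf.toFinset, (starRingEnd ℂ) (ev χ' (eS (Cz L u) (Bl M (Cz L u) θ)) (u * v)) =
      ∑ η ∈ hT.toFinset, (starRingEnd ℂ) (mt (Cz L u) χ' η * (η u / η 1)) * η v⁻¹ := by
    intro v hv
    rw [h1 v hv, map_sum]
    refine Finset.sum_congr rfl fun η hη => ?_
    have hη' := (hT.mem_toFinset.1 hη).1
    rw [map_mul _ (mt (Cz L u) χ' η * (η u / η 1)) (η v), hCHC G (Cz L u) η hη' v]
  have h3 : ∀ η η' : G → ℂ, (Nat.card (Cz L u) : ℂ) * EE p (Cz L u) η η' = ∑ v ∈ hSf.toFinset, η v * η' v⁻¹ := by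
    intro η η'
    unfold EE
    rw [mul_div_cancel₀ _ hcard, finsum_mem_eq_finite_toFinset_sum _ hSf]
  unfold Su
  rw [div_eq_iff hcard, finsum_mem_eq_finite_toFinset_sum _ hSf, finsum_mem_eq_finite_toFinset_sum _ hT]
  have h4 : ∀ v ∈ hSf.toFinset, ev χ' (eS (Cz L u) (Bl M (Cz L u) θ)) (u * v) *
      (starRingEnd ℂ) (ev χ' (eS (Cz L u) (Bl M (Cz L u) θ)) (u * v)) =
      (∑ η ∈ hT.toFinset, (mt (Cz L u) χ' η * (η u / η 1)) * η v) *
        (∑ η ∈ hT.toFinset, (starRingEnd ℂ) (mt (Cz L u) χ' η * (η u / η 1)) * η v⁻¹) := by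
    intro v hv
    rw [h2 v hv, ← h1 v hv]
  rw [Finset.sum_congr rfl h4, SUA3_alg hSf.toFinset hT.toFinset (fun η => mt (Cz L u) χ' η * (η u / η 1))
    (fun η => (starRingEnd ℂ) (mt (Cz L u) χ' η * (η u / η 1))) (fun η v => η v) (fun η v => η v⁻¹), Finset.sum_mul]
  refine Finset.sum_congr rfl fun η _ => ?_
  rw [finsum_mem_eq_finite_toFinset_sum _ hT, Finset.sum_mul]
  refine Finset.sum_congr rfl fun η' _ => ?_
  rw [← h3 η η']
  ring

end Pool.Agent.FI3
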